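import Pool.Agent.Q28.HJ.GMain

/-!
# Étale motivic cohomology of arithmetic schemes built from hypersurfaces of arbitrary dimension:
definitions
-/

set_option autoImplicit false

open CategoryTheory MonoidalCategory

universe v u w

namespace Pool.Agent.Q173.FG

/-- There is an exact sequence `A → B → C → D → E` (exact at `B`, `C`, `D`). -/
def Sequence (A B C D E : Type w) [AddCommGroup A] [AddCommGroup B] [AddCommGroup C]
    [AddCommGroup D] [AddCommGroup E] : Prop :=
  ∃ (a : A →+ B) (b : B →+ C) (c : C →+ D) (a' : D →+ E),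
    Function.Exact a b ∧ Function.Exact b c ∧ Function.Exact c a'

/-- There are homomorphisms `A → B → A` with composite the multiplication by `m`. -/
def Transfer (m : ℕ) (A B : Type w) [AddCommGroup A] [AddCommGroup B] : Prop :=
  ∃ (f : A →+ B) (g : B →+ A), ∀ x, g (f x) = m • x

/-- There is a sequence `A → B → C` which is exact at `B`. -/
def ShortSequence (A B C : Type w) [AddCommGroup A] [AddCommGroup B] [AddCommGroup C] : Prop :=
  ∃ (f : A →+ B) (g : B →+ C), Function.Exact f g

/-- Arithmetic schemes and their étale motivic cohomology groups `H X n i = H^i(X_et, ℤ^c(n))`. -/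
structure Coh where
  /-- arithmetic schemes: separated and of finite type over the integers -/
  Sch : Type w
  /-- flat over the ring of integers of a number field, all geometric fibres cellular -/
  Cell : Sch → Prop
  /-- `Piece Z X U`: `Z` is a closed subscheme of `X` and `U` is its complement -/
  Piece : Sch → Sch → Sch → Prop
  /-- `AffBun r X Y`: `X` is an affine bundle over `Y` of relative dimension `r` -/
  AffBun : ℕ → Sch → Sch → Prop
  /-- `ProjBun r X Y`: `X` is the projective bundle of a vector bundle of rank `r + 1` on `Y` -/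
  ProjBun : ℕ → Sch → Sch → Prop
  /-- `Cover m X Y`: `Y` is finite étale of degree `m ≥ 1` over `X` -/
  Cover : ℕ → Sch → Sch → Prop
  /-- the groups `H^i(X_et, ℤ^c(n))` -/
  H : Sch → ℤ → ℤ → Type w
  /-- group structure -/
  [grp : ∀ X n i, AddCommGroup (H X n i)]
  /-- the groups `H^i(X_et, ℚ^c(n))` -/
  V : Sch → ℤ → ℤ → Type w
  /-- group structure -/
  [vgrp : ∀ X n i, AddCommGroup (V X n i)]
  /-- the groups `H^(i-1)(X_et, (ℚ/ℤ)^c(n))` -/
  A : Sch → ℤ → ℤ → Type w
  /-- group structure -/
  [agrp : ∀ X n i, AddCommGroup (A X n i)]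
  /-- the `ℚ`-algebra of correspondences modulo rational equivalence of a smooth projective scheme over
  a finite field -/
  Corr : Sch → Type w
  /-- ring structure -/
  [ring : ∀ X, Ring (Corr X)]
  /-- algebra structure -/
  [alg : ∀ X, Algebra ℚ (Corr X)]
  /-- the action of the correspondences on `V` -/
  act : ∀ X n i, Corr X →+* AddMonoid.End (V X n i)
  /-- the Frobenius endomorphism -/
  Fr : ∀ X, Corr X

attribute [instance] Coh.grp Coh.vgrp Coh.agrp Coh.ring Coh.alg

namespace Coh

variable (C : Coh.{w})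

/-- The class of arithmetic schemes built from the schemes with property `S` by decomposition into a
closed subscheme and its complement (two out of three), affine bundles, projective bundles and
images under finite étale coverings. -/
inductive Built (S : C.Sch → Prop) : C.Sch → Prop
  | of {X : C.Sch} (h : S X) : Built S X
  | glue {Z X U : C.Sch} (h : C.Piece Z X U) (hZ : Built S Z) (hU : Built S U) : Built S X
  | compl {Z X U : C.Sch} (h : C.Piece Z X U) (hZ : Built S Z) (hX : Built S X) : Built S U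
  | closed {Z X U : C.Sch} (h : C.Piece Z X U) (hX : Built S X) (hU : Built S U) : Built S Z
  | affBun {r : ℕ} {X Y : C.Sch} (h : C.AffBun r X Y) (hY : Built S Y) : Built S X
  | projBun {r : ℕ} {X Y : C.Sch} (h : C.ProjBun r X Y) (hY : Built S Y) : Built S X
  | cover {m : ℕ} {X Y : C.Sch} (h : C.Cover m X Y) (hY : Built S Y) : Built S X

/-- Localization sequence in weight `n` near degree `i`. -/
def Localization (Z X U : C.Sch) (n i : ℤ) : Prop :=
  Sequence (C.H Z n i) (C.H X n i) (C.H U n i) (C.H Z n (i + 1)) (C.H X n (i + 1))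

/-- In the ring of correspondences of `X` some power of `P(F)` is zero, `P` a nonzero polynomial all of
whose complex roots have absolute value `q^(j/2)` for some `0 ≤ j ≤ 2 d`. -/
def FrobeniusNilpotent (X : C.Sch) (q d : ℕ) : Prop :=
  ∃ (P : Polynomial ℚ) (k : ℕ), P ≠ 0 ∧ (Polynomial.aeval (C.Fr X) P) ^ k = 0 ∧
    ∀ z : ℂ, Polynomial.aeval z P = 0 → ∃ j ≤ 2 * d, ‖z‖ ^ 2 = (q : ℝ) ^ j

/-- Frobenius acts on `H^i(X_et, ℚ^c(n))` as multiplication by `c`. -/
def FrobeniusActs (X : C.Sch) (n i : ℤ) (c : ℚ) : Prop :=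
  C.act X n i (C.Fr X) = C.act X n i (algebraMap ℚ _ c)

/-- Known facts on étale motivic cohomology in weights `n < 0`. `coeff`: the coefficient sequence;
`loc`: localization; `affBun`, `projBun`: affine and projective bundles; `cover`, `torsion`: transfer
for finite étale coverings, finiteness of the `m`-torsion; `cell`: finite generation for flat schemes
over rings of integers with cellular geometric fibres (listed as known in the problem file). -/
structure CohFacts : Prop where
  coeff : ∀ (X : C.Sch) (n i : ℤ), ShortSequence (C.A X n i) (C.H X n i) (C.V X n i)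
  loc : ∀ Z X U, C.Piece Z X U → ∀ n i : ℤ, n < 0 → C.Localization Z X U n i
  affBun : ∀ (r : ℕ) (X Y : C.Sch), C.AffBun r X Y → ∀ n i : ℤ, n < 0 →
    Nonempty (C.H X n i ≃+ C.H Y (n - r) (i + 2 * r))
  projBun : ∀ (r : ℕ) (X Y : C.Sch), C.ProjBun r X Y → ∀ n i : ℤ, n < 0 →
    Nonempty (C.H X n i ≃+ (∀ j : Fin (r + 1), C.H Y (n - j) (i + 2 * j)))
  cover : ∀ (m : ℕ) (X Y : C.Sch), C.Cover m X Y → 0 < m ∧ ∀ n i : ℤ, n < 0 →
    Transfer m (C.H X n i) (C.H Y n i)
  torsion : ∀ (X : C.Sch) (n i : ℤ) (m : ℕ), n < 0 → 0 < m → {x : C.H X n i | m • x = 0}.Finite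
  cell : ∀ X : C.Sch, C.Cell X → ∀ n i : ℤ, n < 0 → AddGroup.FG (C.H X n i)

end Coh

/-- For every prime `p`: the Chow motives (rational coefficients) over an algebraic closure of `𝔽_p` and
the hypersurfaces of degree prime to `p` over it. -/
structure EData (𝓜 : ℕ → Type u) [∀ p, Category.{v} (𝓜 p)] extends Coh.{w} where
  /-- motives and hypersurfaces, in characteristic `p` -/
  J : ∀ p, Pool.Agent.Q28.HJ.JoinData.{v, u, w} (𝓜 p)
  /-- motives of abelian varieties -/
  Ab : ∀ p, 𝓜 p → Prop
  /-- the motive of a smooth hypersurface -/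
  mot : ∀ p, (J p).Hyp → 𝓜 p
  /-- the motive is finite-dimensional in the sense of Kimura -/
  Kim : ∀ p, 𝓜 p → Prop
  /-- `SmProj p q d X N`: the scheme `X` is smooth and projective of dimension `d` over the field with
  `q` elements, of characteristic `p`, and `N` is its motive over the algebraic closure -/
  SmProj : ∀ p : ℕ, ℕ → ℕ → Sch → 𝓜 p → Prop

namespace EData

variable {𝓜 : ℕ → Type u} [∀ p, Category.{v} (𝓜 p)] (T : EData.{v, u, w} 𝓜)

variable [∀ p, Preadditive (𝓜 p)] [∀ p, MonoidalCategory (𝓜 p)]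

/-- Characteristic `p ≥ 5`: the Chow motives generated by the motives of abelian varieties and by the
motives of the smooth hypersurfaces of arbitrary dimension which are sums, in disjoint sets of
variables, of binary forms, or of cubic forms in at most four variables, and of forms as these minus
`u ^ d` (degree `d` prime to `p`). -/
def GoodMotive (p : ℕ) (N : 𝓜 p) : Prop :=
  5 ≤ p ∧ Pool.Agent.Q28.HJ.GenBy (T.J p).L
    (fun N => T.Ab p N ∨ ∃ W, (T.J p).IsAbelianSum W ∧ N = T.mot p W) N

/-- Smooth and projective over a finite field of characteristic at least five, with a good motive. -/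
def Good (X : T.Sch) : Prop := ∃ p q d N, T.SmProj p q d X N ∧ T.GoodMotive p N

/-- Known facts. `core`, `abelian`: hypersurfaces given by sums of forms; motives of curves,
cubic surfaces and cubic threefolds (for cubic threefolds in characteristic different from two:
Murre, 1972 and 1974). `mot`: the motive of a hypersurface is a direct sum of `M_X` and of
powers of `L`. `kim_*`: finite-dimensional motives (Kimura). `frobenius` (Kimura, Deligne): if the
motive of `X` is finite-dimensional, then `P(F)` is nilpotent in the ring of correspondences for the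
characteristic polynomial `P` of the Frobenius on `H^*(X)`, and its roots have absolute value
`q^(j/2)`, `0 ≤ j ≤ 2 d`. `weight`: for `X` smooth projective of dimension `d` over `𝔽_q` Frobenius acts
on `H^i(X_et, ℚ^c(n)) = H^(2d+i)(X, ℚ(d-n))` as `q^(d-n)` (Soulé). `finite` (Deligne, Gabber):
`H^i(X_et, (ℚ/ℤ)^c(n))` is finite for `n < 0`. -/
structure Facts : Prop extends T.toCoh.CohFacts where
  core : ∀ p, 5 ≤ p → (T.J p).CoreFacts
  abelian : ∀ p, 5 ≤ p → (T.J p).AbelianFacts (T.Ab p)
  mot : ∀ p, 5 ≤ p → ∀ W : (T.J p).Hyp, (T.J p).Smooth W →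
    Pool.Agent.Q28.HJ.GenBy (T.J p).L (fun N => N = (T.J p).prim W) (T.mot p W)
  kim_ab : ∀ p N, T.Ab p N → T.Kim p N
  kim_unit : ∀ p, T.Kim p (𝟙_ (𝓜 p))
  kim_lef : ∀ p, T.Kim p (T.J p).L
  kim_tensor : ∀ p (M N : 𝓜 p), T.Kim p M → T.Kim p N → T.Kim p (M ⊗ N)
  kim_split : ∀ p (M N N' : 𝓜 p) (i₁ : M ⟶ N) (r₁ : N ⟶ M) (i₂ : M ⟶ N') (r₂ : N' ⟶ M),
    i₁ ≫ r₁ + i₂ ≫ r₂ = 𝟙 M → T.Kim p N → T.Kim p N' → T.Kim p M
  kim_untwist : ∀ p (M : 𝓜 p), T.Kim p (M ⊗ (T.J p).L) → T.Kim p M
  frobenius : ∀ (p q d : ℕ) (X : T.Sch) (N : 𝓜 p), T.SmProj p q d X N → T.Kim p N →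
    T.toCoh.FrobeniusNilpotent X q d
  prime_power : ∀ (p q d : ℕ) (X : T.Sch) (N : 𝓜 p), T.SmProj p q d X N → 2 ≤ q
  weight : ∀ (p q d : ℕ) (X : T.Sch) (N : 𝓜 p), T.SmProj p q d X N → ∀ n i : ℤ, n < 0 →
    T.toCoh.FrobeniusActs X n i ((q : ℚ) ^ ((d : ℤ) - n))
  finite : ∀ (p q d : ℕ) (X : T.Sch) (N : 𝓜 p), T.SmProj p q d X N → ∀ n i : ℤ, n < 0 →
    Finite (T.A X n i)

end EData

end Pool.Agent.Q173.FG
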