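import Pool.Agent.Q173.FG.Defs

/-!
# Étale motivic cohomology of arithmetic schemes built from hypersurfaces of arbitrary dimension
-/

set_option autoImplicit false

open CategoryTheory MonoidalCategory

universe v u w

namespace Pool.Agent.Q173.FG

/-- A property of abelian groups closed under extensions, finite groups, isomorphisms and finite
products. -/
structure Serre (Q : ∀ (G : Type w) [AddCommGroup G], Prop) : Prop where
  exact : ∀ {A B C : Type w} [AddCommGroup A] [AddCommGroup B] [AddCommGroup C] (f : A →+ B)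
    (g : B →+ C), Function.Exact f g → Q A → Q C → Q B
  fin : ∀ {A : Type w} [AddCommGroup A], Finite A → Q A
  equiv : ∀ {A B : Type w} [AddCommGroup A] [AddCommGroup B], Nonempty (A ≃+ B) → Q B → Q A
  pi : ∀ {r : ℕ} {B : Fin r → Type w} [∀ j, AddCommGroup (B j)], (∀ j, Q (B j)) → Q (∀ j, B j)

lemma finite_exact {A B C : Type w} [AddCommGroup A] [AddCommGroup B] [AddCommGroup C] (f : A →+ B)
    (g : B →+ C) (h : Function.Exact f g) (hA : Finite A) (hC : Finite C) : Finite B := by
  have h1 : Finite g.ker := by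
    have : Function.Surjective (fun a : A => (⟨f a, (h (f a)).2 ⟨a, rfl⟩⟩ : g.ker)) := by
      rintro ⟨b, hb⟩
      obtain ⟨a, rfl⟩ := (h b).1 hb
      exact ⟨a, rfl⟩
    exact Finite.of_surjective _ this
  have h2 : Finite g.range := inferInstance
  have h3 : Finite (B ⧸ g.ker) := Finite.of_equiv _ (QuotientAddGroup.quotientKerEquivRange g).symm.toEquiv
  have e := AddSubgroup.addGroupEquivQuotientProdAddSubgroup (s := g.ker)
  exact Finite.of_equiv _ e.symm

theorem serre_finite : Serre.{w} (fun G _ => Finite G) where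
  exact := fun f g h hA hC => finite_exact f g h hA hC
  fin := fun h => h
  equiv := by
    rintro A B _ _ ⟨e⟩ h
    exact Finite.of_equiv _ e.symm.toEquiv
  pi := fun h => by
    have := h
    infer_instance

lemma fg_iff {A : Type w} [AddCommGroup A] : AddGroup.FG A ↔ Module.Finite ℤ A :=
  (Module.Finite.iff_addGroup_fg (G := A)).symm

lemma fg_exact {A B C : Type w} [AddCommGroup A] [AddCommGroup B] [AddCommGroup C] (f : A →+ B)
    (g : B →+ C) (h : Function.Exact f g) (hA : AddGroup.FG A) (hC : AddGroup.FG C) :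
    AddGroup.FG B := by
  rw [fg_iff] at *
  have hN : IsNoetherian ℤ C := isNoetherian_of_isNoetherianRing_of_finite ℤ C
  have hM : IsNoetherian ℤ A := isNoetherian_of_isNoetherianRing_of_finite ℤ A
  have : IsNoetherian ℤ B := by
    refine isNoetherian_of_range_eq_ker f.toIntLinearMap g.toIntLinearMap ?_
    ext x
    rw [LinearMap.mem_range, LinearMap.mem_ker]
    exact ((h x).symm)
  exact inferInstance

theorem serre_fg : Serre.{w} (fun G _ => AddGroup.FG G) where
  exact := fun f g h hA hC => fg_exact f g h hA hC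
  fin := by
    intro A _ h
    rw [fg_iff]
    exact Module.Finite.of_finite (R := ℤ) (M := A)
  equiv := by
    rintro A B _ _ ⟨e⟩ h
    rw [fg_iff] at *
    exact Module.Finite.equiv e.symm.toIntLinearEquiv
  pi := by
    intro r B _ h
    rw [fg_iff]
    have : ∀ j, Module.Finite ℤ (B j) := fun j => fg_iff.1 (h j)
    exact Module.Finite.pi

namespace EData

variable {𝓜 : ℕ → Type u} [∀ p, Category.{v} (𝓜 p)] {T : EData.{v, u, w} 𝓜}
variable [∀ p, Preadditive (𝓜 p)] [∀ p, MonoidalCategory (𝓜 p)]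

lemma kim_good (hT : T.Facts) {p : ℕ} {N : 𝓜 p} (h : T.GoodMotive p N) : T.Kim p N := by
  obtain ⟨hp, h⟩ := h
  have h' : Pool.Agent.Q28.HJ.GenBy (T.J p).L (T.Ab p) N := by
    refine Pool.Agent.Q28.HJ.GenBy.bind (fun M hM => ?_) h
    rcases hM with hM | ⟨W, hW, rfl⟩
    · exact .of hM
    · obtain ⟨hs, hg⟩ :=
        Pool.Agent.Q28.HJ.JoinData.abelian_sum (hT.core p hp) (hT.abelian p hp) hW
      refine Pool.Agent.Q28.HJ.GenBy.bind (fun M hM => ?_) (hT.mot p hp W hs)
      rw [hM]
      exact hg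
  clear h
  induction h' with
  | of h => exact hT.kim_ab p _ h
  | unit => exact hT.kim_unit p
  | lef => exact hT.kim_lef p
  | tensor _ _ ih₁ ih₂ => exact hT.kim_tensor p _ _ ih₁ ih₂
  | split i₁ r₁ i₂ r₂ e _ _ ih₁ ih₂ =>
    exact hT.kim_split p _ _ _ i₁ r₁ i₂ r₂ e ih₁ ih₂
  | untwist _ ih => exact hT.kim_untwist p _ ih

/-- `H^i(X_et, ℚ^c(n)) = 0` -/
lemma rational_zero (hT : T.Facts) {p q d : ℕ} {X : T.Sch} {N : 𝓜 p}
    (hX : T.SmProj p q d X N) (hN : T.Kim p N) {n i : ℤ} (hn : n < 0) : Subsingleton (T.V X n i) := by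
  obtain ⟨P, k, hP, hk, hz⟩ := hT.frobenius p q d X N hX hN
  have hq := hT.prime_power p q d X N hX
  set c : ℚ := (q : ℚ) ^ ((d : ℤ) - n) with hc
  have h0 : P.eval c ≠ 0 := by
    intro h
    have h1 : Polynomial.aeval (c : ℂ) P = 0 := by
      have : (c : ℂ) = algebraMap ℚ ℂ c := rfl
      rw [this, Polynomial.aeval_algebraMap_apply, Polynomial.coe_aeval_eq_eval, h, map_zero]
    obtain ⟨j, hj, e⟩ := hz _ h1
    have h2 : (1 : ℝ) < q := by exact_mod_cast hq
    have h3 : ‖(c : ℂ)‖ = (q : ℝ) ^ ((d : ℤ) - n) := by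
      rw [hc]
      push_cast
      rw [norm_zpow, Complex.norm_natCast]
    rw [h3, ← zpow_natCast, ← zpow_mul, ← zpow_natCast] at e
    have := zpow_right_injective₀ (by linarith : (0 : ℝ) < q) h2.ne' e
    push_cast at this
    have : (j : ℤ) ≤ 2 * d := by exact_mod_cast hj
    omega
  have hw : T.act X n i (T.Fr X) = T.act X n i (algebraMap ℚ _ c) := hT.weight p q d X N hX n i hn
  have h1 : T.act X n i (Polynomial.aeval (T.Fr X) P) = T.act X n i (algebraMap ℚ _ (P.eval c)) := by
    rw [Polynomial.aeval_def, Polynomial.hom_eval₂, hw]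
    have : T.act X n i (algebraMap ℚ _ c) = ((T.act X n i).comp (algebraMap ℚ _)) c := rfl
    rw [this, Polynomial.eval₂_at_apply]
    rfl
  have h2 : IsUnit (T.act X n i (algebraMap ℚ _ (P.eval c))) :=
    ((isUnit_iff_ne_zero.2 h0).map (algebraMap ℚ (T.Corr X))).map (T.act X n i)
  have h3 : (T.act X n i (algebraMap ℚ _ (P.eval c))) ^ k = 0 := by
    rw [← h1, ← map_pow, hk, map_zero]
  have h4 : IsUnit (0 : AddMonoid.End (T.V X n i)) := h3 ▸ h2.pow k
  have h5 : (0 : AddMonoid.End (T.V X n i)) = 1 := isUnit_zero_iff.1 h4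
  refine ⟨fun x y => ?_⟩
  have h6 : ∀ z : T.V X n i, z = 0 := fun z => (DFunLike.congr_fun h5 z).symm
  rw [h6 x, h6 y]

lemma finite_good (hT : T.Facts) {X : T.Sch} (h : T.Good X) {n : ℤ} (hn : n < 0) (i : ℤ) :
    Finite (T.H X n i) := by
  obtain ⟨p, q, d, N, hX, hN⟩ := h
  have h1 : Subsingleton (T.V X n i) := rational_zero hT hX (kim_good hT hN) hn
  obtain ⟨f, g, e⟩ := hT.coeff X n i
  exact finite_exact f g e (hT.finite p q d X N hX n i hn) inferInstance

/-- closure of a Serre class -/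
lemma built {Q : ∀ (G : Type w) [AddCommGroup G], Prop} (hQ : Serre.{w} Q) (hT : T.Facts)
    {S : T.Sch → Prop} (hS : ∀ X, S X → ∀ n i : ℤ, n < 0 → Q (T.H X n i)) {X : T.Sch}
    (h : T.toCoh.Built S X) : ∀ n i : ℤ, n < 0 → Q (T.H X n i) := by
  induction h with
  | of h => exact hS _ h
  | glue h _ _ ih₁ ih₂ =>
    intro n i hn
    obtain ⟨a, b, c, a', e, -, -⟩ := hT.loc _ _ _ h n i hn
    exact hQ.exact a b e (ih₁ n i hn) (ih₂ n i hn)
  | compl h _ _ ih₁ ih₂ =>
    intro n i hn
    obtain ⟨a, b, c, a', -, e, -⟩ := hT.loc _ _ _ h n i hn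
    exact hQ.exact b c e (ih₂ n i hn) (ih₁ n (i + 1) hn)
  | closed h _ _ ih₁ ih₂ =>
    intro n i hn
    obtain ⟨a, b, c, a', -, -, e⟩ := hT.loc _ _ _ h n (i - 1) hn
    have h1 := hQ.exact c a' e (ih₂ n (i - 1) hn) (ih₁ n (i - 1 + 1) hn)
    rwa [sub_add_cancel] at h1
  | affBun h _ ih =>
    intro n i hn
    exact hQ.equiv (hT.affBun _ _ _ h n i hn) (ih _ _ (by omega))
  | projBun h _ ih =>
    intro n i hn
    exact hQ.equiv (hT.projBun _ _ _ h n i hn) (hQ.pi fun j => ih _ _ (by omega))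
  | @cover m X Y h _ ih =>
    intro n i hn
    obtain ⟨hm, h⟩ := hT.cover _ _ _ h
    obtain ⟨f, g, e⟩ := h n i hn
    have h1 : Finite f.ker := by
      refine (Set.Finite.subset (hT.torsion X n i m hn hm) (fun x hx => ?_)).to_subtype
      change m • x = 0
      rw [← e x, (hx : f x = 0), map_zero]
    refine hQ.exact f.ker.subtype f (fun x => ?_) (hQ.fin h1) (ih n i hn)
    constructor
    · intro hx
      exact ⟨⟨x, hx⟩, rfl⟩
    · rintro ⟨y, rfl⟩
      exact y.2

/-- **Main theorem.** -/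
theorem main (hT : T.Facts) :
    (∀ X, T.toCoh.Built T.Good X → ∀ n i : ℤ, n < 0 → Finite (T.H X n i)) ∧
    (∀ X, T.toCoh.Built (fun X => T.Good X ∨ T.Cell X) X → ∀ n i : ℤ, n < 0 → AddGroup.FG (T.H X n i)) := by
  constructor
  · intro X hX
    exact built serre_finite hT (fun X hX n i hn => finite_good hT hX hn i) hX
  · intro X hX
    refine built serre_fg hT (fun X hX n i hn => ?_) hX
    rcases hX with hX | hX
    · exact serre_fg.fin (finite_good hT hX hn i)
    · exact hT.cell X hX n i hn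

end EData

end Pool.Agent.Q173.FG
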